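import Pool.Agent.Helper808_Irr.StarMain

/-!
# Infinitely many `F`-irregular oriented graphs, for every weakly connected `F`

For every weakly connected oriented graph `F` on at least three vertices there are infinitely
many pairwise non-isomorphic `F`-irregular oriented graphs.
-/

namespace Pool.Agent.Results.MP_5b35db_co.EveryPattern

/-- An oriented graph on the vertex set `V`: a set of ordered pairs (arcs) containing no two
opposite pairs and (take `u = v`) no loops. -/
structure OGraph (V : Type) where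
  arc : V → V → Prop
  asymm : ∀ u v, arc u v → ¬ arc v u

/-- Two oriented graphs are isomorphic. -/
def Iso {V W : Type} (F : OGraph V) (G : OGraph W) : Prop :=
  ∃ e : V ≃ W, ∀ u v, F.arc u v ↔ G.arc (e u) (e v)

/-- A subgraph of `G`: a set of vertices and a set of arcs of `G` among them. -/
@[ext]
structure OSubgraph {V : Type} (G : OGraph V) where
  verts : Set V
  arcs : Set (V × V)
  isArc : ∀ p ∈ arcs, G.arc p.1 p.2
  left_mem : ∀ p ∈ arcs, p.1 ∈ verts
  right_mem : ∀ p ∈ arcs, p.2 ∈ verts

/-- A subgraph, seen as an oriented graph on its own vertex set. -/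
def OSubgraph.toOGraph {V : Type} {G : OGraph V} (S : OSubgraph G) : OGraph S.verts where
  arc u v := ((u : V), (v : V)) ∈ S.arcs
  asymm _ _ h h' := G.asymm _ _ (S.isArc _ h) (S.isArc _ h')

/-- The `F`-degree of the vertex `v` of `G`: the number of subgraphs of `G` which contain `v` and
are isomorphic to `F`. -/
noncomputable def Fdeg {V W : Type} (F : OGraph W) (G : OGraph V) (v : V) : ℕ :=
  {S : OSubgraph G | v ∈ S.verts ∧ Iso F S.toOGraph}.ncard

/-- `G` is `F`-irregular: distinct vertices have distinct `F`-degrees. -/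
def FIrregular {V W : Type} (F : OGraph W) (G : OGraph V) : Prop :=
  ∀ u v : V, u ≠ v → Fdeg F G u ≠ Fdeg F G v

/-- `F` is weakly connected: its underlying undirected graph is connected. -/
def WeaklyConnected {W : Type} (F : OGraph W) : Prop :=
  (SimpleGraph.fromRel F.arc).Connected

/-- On a finite vertex set there are finitely many subgraphs, so `Fdeg` is a true count. -/
theorem finite_subgraphs {V : Type} [Finite V] (G : OGraph V) : Finite (OSubgraph G) := by
  refine Finite.of_injective (fun S : OSubgraph G => (S.verts, S.arcs)) ?_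
  intro S T h
  exact OSubgraph.ext (Prod.mk.inj h).1 (Prod.mk.inj h).2

/-! ### From labelled copies to subgraphs -/

variable {V W : Type}

/-- Labelled copies of `F` in `G` through `v`. -/
def Lab (F : OGraph W) (G : OGraph V) (v : V) : Type :=
  {f : W → V // Function.Injective f ∧ (∀ x y, F.arc x y → G.arc (f x) (f y)) ∧ ∃ x, f x = v}

/-- Automorphisms of `F`. -/
def Aut (F : OGraph W) : Type := {a : W ≃ W // ∀ x y, F.arc x y ↔ F.arc (a x) (a y)}

/-- The image of a labelled copy. -/
def img (F : OGraph W) (G : OGraph V) (f : W → V) (hf : ∀ x y, F.arc x y → G.arc (f x) (f y)) :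
    OSubgraph G where
  verts := Set.range f
  arcs := {p | ∃ x y, F.arc x y ∧ f x = p.1 ∧ f y = p.2}
  isArc := by
    rintro ⟨u, v⟩ ⟨x, y, h, h1, h2⟩
    simp only at h1 h2
    subst h1 h2
    exact hf _ _ h
  left_mem := by
    rintro ⟨u, v⟩ ⟨x, y, h, h1, h2⟩
    exact ⟨x, h1⟩
  right_mem := by
    rintro ⟨u, v⟩ ⟨x, y, h, h1, h2⟩
    exact ⟨y, h2⟩

theorem img_iso (F : OGraph W) (G : OGraph V) (f : W → V)
    (hf : ∀ x y, F.arc x y → G.arc (f x) (f y)) (hi : Function.Injective f) :
    Iso F (img F G f hf).toOGraph := by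
  refine ⟨Equiv.ofInjective f hi, ?_⟩
  intro u v
  constructor
  · intro h
    exact ⟨u, v, h, rfl, rfl⟩
  · rintro ⟨x, y, h, h1, h2⟩
    have e1 : x = u := hi h1
    have e2 : y = v := hi h2
    rw [← e1, ← e2]
    exact h

theorem lab_eq (F : OGraph W) (G : OGraph V) (v : V) :
    Nat.card (Lab F G v) = Fdeg F G v * Nat.card (Aut F) := by
  classical
  have hch : ∀ S : {S : OSubgraph G // v ∈ S.verts ∧ Iso F S.toOGraph}, ∃ e : W ≃ S.1.verts,
      ∀ x y, F.arc x y ↔ S.1.toOGraph.arc (e x) (e y) := fun S => S.2.2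
  choose e he using hch
  set Θ : {S : OSubgraph G // v ∈ S.verts ∧ Iso F S.toOGraph} × Aut F → Lab F G v := fun q =>
    ⟨fun x => (e q.1 (q.2.1 x) : V), by
      refine ⟨?_, ?_, ?_⟩
      · intro x y hxy
        exact q.2.1.injective ((e q.1).injective (Subtype.ext hxy))
      · intro x y hxy
        have h1 := (he q.1 _ _).1 ((q.2.2 x y).1 hxy)
        exact q.1.1.isArc _ h1
      · refine ⟨q.2.1.symm ((e q.1).symm ⟨v, q.1.2.1⟩), ?_⟩
        simp⟩ with hΘ
  have hverts : ∀ q, Set.range (Θ q).1 = q.1.1.verts := by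
    intro q
    ext u
    constructor
    · rintro ⟨x, rfl⟩
      exact (e q.1 (q.2.1 x)).2
    · intro hu
      refine ⟨q.2.1.symm ((e q.1).symm ⟨u, hu⟩), ?_⟩
      simp [hΘ]
  have himg : ∀ q, img F G (Θ q).1 (Θ q).2.2.1 = q.1.1 := by
    intro q
    refine OSubgraph.ext (hverts q) ?_
    ext ⟨u, w⟩
    constructor
    · rintro ⟨x, y, h, h1, h2⟩
      simp only at h1 h2
      rw [← h1, ← h2]
      exact (he q.1 _ _).1 ((q.2.2 x y).1 h)
    · intro h
      have hu := q.1.1.left_mem _ h
      have hw := q.1.1.right_mem _ h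
      refine ⟨q.2.1.symm ((e q.1).symm ⟨u, hu⟩), q.2.1.symm ((e q.1).symm ⟨w, hw⟩), ?_, ?_, ?_⟩
      · rw [q.2.2, he q.1]
        simp only [Equiv.apply_symm_apply]
        exact h
      · simp [hΘ]
      · simp [hΘ]
  have hinj : Function.Injective Θ := by
    intro q q' h
    have h1 : q.1 = q'.1 := by
      apply Subtype.ext
      rw [← himg q, ← himg q']
      congr 1
      rw [h]
    obtain ⟨S, a⟩ := q
    obtain ⟨S', a'⟩ := q'
    simp only at h1
    subst h1
    have h2 : a = a' := by
      apply Subtype.ext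
      apply Equiv.ext
      intro x
      have h3 := congrFun (congrArg Subtype.val h) x
      exact (e S).injective (Subtype.ext h3)
    rw [h2]
  have hsurj : Function.Surjective Θ := by
    rintro ⟨f, hi, hf, x0, hx0⟩
    set S : {S : OSubgraph G // v ∈ S.verts ∧ Iso F S.toOGraph} :=
      ⟨img F G f hf, ⟨x0, hx0⟩, img_iso F G f hf hi⟩ with hS
    have key : ∀ x, ((e S) ((e S).symm ⟨f x, ⟨x, rfl⟩⟩) : V) = f x := by
      intro x
      simp
    set a : W ≃ W := (Equiv.ofInjective f hi).trans (e S).symm with ha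
    have hax : ∀ x, ((e S) (a x) : V) = f x := fun x => key x
    refine ⟨(S, ⟨a, ?_⟩), ?_⟩
    · intro x y
      rw [he S (a x) (a y)]
      constructor
      · intro h
        exact ⟨x, y, h, (hax x).symm, (hax y).symm⟩
      · rintro ⟨x', y', h, h1, h2⟩
        simp only at h1 h2
        rw [hax] at h1 h2
        rw [← hi h1, ← hi h2]
        exact h
    · apply Subtype.ext
      funext x
      exact hax x
  rw [← Nat.card_eq_of_bijective Θ ⟨hinj, hsurj⟩, Nat.card_prod]
  congr 1

/-! ### The host graph on an initial segment of the integers -/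

open Pool.Agent.Helper808_Irr in
/-- The host graph on the points `P.VV`, transported along an enumeration. -/
def host {n N : ℕ} (RA : Fin n → Fin n → Prop) (hRA : ∀ v w, RA v w → ¬ RA w v)
    (P : Par (Fin n)) (e : P.VV ≃ Fin N) : OGraph (Fin N) where
  arc i j := GE Pt.cl RA P.Ex (e.symm i : Pt (Fin n)) (e.symm j)
  asymm _ _ h h' := hRA _ _ h.1 h'.1

open Pool.Agent.Helper808_Irr in
theorem lab_host [Fintype W] [DecidableEq W] (F : OGraph W) {n N : ℕ}
    (RA : Fin n → Fin n → Prop) (hRA : ∀ v w, RA v w → ¬ RA w v)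
    (P : Par (Fin n)) (e : P.VV ≃ Fin N) (i : Fin N) :
    Nat.card (Lab F (host RA hRA P e) i) = LL F.arc RA P (e.symm i) := by
  classical
  set X := EmbAt F.arc P.VV (GE Pt.cl RA P.Ex) (e.symm i : Pt (Fin n)) with hX
  set Θ : Lab F (host RA hRA P e) i → {f // f ∈ X} := fun f =>
    ⟨fun x => (e.symm (f.1 x) : Pt (Fin n)), by
      rw [hX, mem_EmbAt, mem_Emb]
      refine ⟨⟨fun x => (e.symm (f.1 x)).2, ?_, ?_⟩, ?_⟩
      · intro x y hxy
        exact f.2.1 (e.symm.injective (Subtype.ext hxy))
      · intro x y hxy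
        exact f.2.2.1 x y hxy
      · obtain ⟨x, hx⟩ := f.2.2.2
        exact ⟨x, by rw [hx]⟩⟩ with hΘ
  have hbij : Function.Bijective Θ := by
    constructor
    · intro f f' h
      apply Subtype.ext
      funext x
      have h1 := congrFun (congrArg Subtype.val h) x
      exact e.symm.injective (Subtype.ext h1)
    · rintro ⟨f, hf⟩
      have hf' := hf
      rw [hX, mem_EmbAt, mem_Emb] at hf'
      obtain ⟨⟨h1, h2, h3⟩, x0, hx0⟩ := hf'
      refine ⟨⟨fun x => e ⟨f x, h1 x⟩, ?_, ?_, x0, ?_⟩, ?_⟩
      · intro x y hxy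
        exact h2 (Subtype.mk.inj (e.injective hxy))
      · intro x y hxy
        show GE Pt.cl RA P.Ex (e.symm (e ⟨f x, h1 x⟩) : Pt (Fin n)) (e.symm (e ⟨f y, h1 y⟩))
        simp only [Equiv.symm_apply_apply]
        exact h3 x y hxy
      · exact (Equiv.eq_symm_apply e).1 (Subtype.ext hx0)
      · apply Subtype.ext
        funext x
        show (e.symm (e ⟨f x, h1 x⟩) : Pt (Fin n)) = f x
        simp
  rw [Nat.card_eq_of_bijective Θ hbij, Nat.card_eq_fintype_card, Fintype.card_coe]
  rfl

open Pool.Agent.Helper808_Irr in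
theorem conn_of (F : OGraph W) (hF : WeaklyConnected F) : Conn F.arc := by
  intro x y
  have h := hF.preconnected x y
  rw [SimpleGraph.reachable_iff_reflTransGen] at h
  induction h with
  | refl => exact Relation.ReflTransGen.refl
  | tail _ hab ih =>
    rw [SimpleGraph.fromRel_adj] at hab
    exact Relation.ReflTransGen.tail ih hab.2

theorem exists_large (W : Type) [Fintype W] (F : OGraph W) (hF : WeaklyConnected F)
    (h3 : 3 ≤ Fintype.card W) (n0 : ℕ) :
    ∃ N, n0 ≤ N ∧ ∃ G : OGraph (Fin N), FIrregular F G := by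
  classical
  obtain ⟨n, RA, P, hRA, hP1, hP2⟩ :=
    Pool.Agent.Helper808_Irr.all_main F.arc F.asymm h3 (conn_of F hF) n0
  set e : P.VV ≃ Fin P.VV.card := P.VV.equivFin with he
  refine ⟨P.VV.card, hP1, host RA hRA P e, ?_⟩
  intro u v huv hdeg
  apply huv
  have h1 : Nat.card (Lab F (host RA hRA P e) u) = Nat.card (Lab F (host RA hRA P e) v) := by
    rw [lab_eq, lab_eq, hdeg]
  rw [lab_host, lab_host] at h1
  exact e.symm.injective (Subtype.ext (hP2 _ (e.symm u).2 _ (e.symm v).2 h1))

theorem card_eq_of_iso {N M : ℕ} {G : OGraph (Fin N)} {H : OGraph (Fin M)} (h : Iso G H) :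
    N = M := by
  obtain ⟨e, _⟩ := h
  simpa using Fintype.card_congr e

/-- For every weakly connected oriented graph `F` on at least three vertices there are infinitely
many pairwise non-isomorphic `F`-irregular oriented graphs: a sequence of `F`-irregular oriented
graphs `G i` on `n i` vertices with `n` strictly increasing, any two of them non-isomorphic. -/
theorem result (W : Type) [Fintype W] (F : OGraph W) (hF : WeaklyConnected F)
    (h3 : 3 ≤ Fintype.card W) :
    ∃ (n : ℕ → ℕ) (G : ∀ i, OGraph (Fin (n i))), StrictMono n ∧ (∀ i, FIrregular F (G i)) ∧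
      ∀ i j, i ≠ j → ¬ Iso (G i) (G j) := by
  choose N hN H hH using exists_large W F hF h3
  set n : ℕ → ℕ := fun i => N ((fun m => N m + 1)^[i] 0) with hn
  have hmono : StrictMono n := by
    refine strictMono_nat_of_lt_succ ?_
    intro i
    simp only [hn, Function.iterate_succ_apply']
    exact Nat.lt_of_lt_of_le (Nat.lt_succ_self _) (hN _)
  refine ⟨n, fun i => H _, hmono, fun i => hH _, ?_⟩
  intro i j hij hiso
  exact hij (hmono.injective (card_eq_of_iso hiso))

end Pool.Agent.Results.MP_5b35db_co.EveryPattern
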